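import Pool.Agent.H24.CurseMain

set_option autoImplicit false

namespace Pool.Agent.Results.MP_562679_an.Curse

open MeasureTheory Set
open scoped ENNReal
open Pool.Agent.H24.CurseDef Pool.Agent.H24.CurseMain Pool.Agent.H24.Curse

variable {d : ℕ} {D : Set (Eu d)}

/-- the sample points of an algorithm along the zero data -/
theorem vals_zero (A : Alg d D) (f : Eu d → ℝ) (n : ℕ)
    (hf : ∀ k < n, f (A.query (List.replicate k 0)) = 0) : ∀ k ≤ n, A.vals f k = List.replicate k 0 := by
  intro k
  induction k with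
  | zero => intro _; rfl
  | succ k ih =>
    intro hk
    have h1 := ih (by omega)
    show A.vals f k ++ [f (A.query (A.vals f k))] = List.replicate (k + 1) 0
    rw [h1, hf k (by omega), List.replicate_succ']

theorem minErr_ge (n : ℕ) (s : ℝ)
    (h : ∀ P : Finset (Eu d), P.card ≤ n → ∃ f : Eu d → ℝ, TildeC2 d D f ∧ TildeC2 d D (fun x => - f x) ∧
      (∀ y ∈ P, f y = 0) ∧ s ≤ ∫ x in D, f x) : ENNReal.ofReal s ≤ minErr d D n := by
  classical
  unfold minErr
  apply le_iInf
  intro A
  obtain ⟨f, hf1, hf2, hf3, hf4⟩ := h ((Finset.range n).image (fun k => A.query (List.replicate k 0)))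
    (Finset.card_image_le.trans (by simp))
  have hz : ∀ k < n, f (A.query (List.replicate k 0)) = 0 := fun k hk =>
    hf3 _ (Finset.mem_image_of_mem _ (Finset.mem_range.2 hk))
  have h1 : A.run n f = A.out (List.replicate n 0) := by
    unfold Alg.run
    rw [vals_zero A f n hz n le_rfl]
  have h2 : A.run n (fun x => - f x) = A.out (List.replicate n 0) := by
    unfold Alg.run
    rw [vals_zero A (fun x => - f x) n (fun k hk => by simp only [hz k hk, neg_zero]) n le_rfl]
  set α := A.out (List.replicate n 0) with hα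
  rcases le_total α 0 with hle | hle
  · refine le_trans ?_ (le_iSup (fun g : {f : Eu d → ℝ // TildeC2 d D f} => ENNReal.ofReal |(∫ x in D, g.1 x) - A.run n g.1|) ⟨f, hf1⟩)
    apply ENNReal.ofReal_le_ofReal
    show s ≤ |(∫ x in D, f x) - A.run n f|
    rw [h1]
    refine le_trans ?_ (le_abs_self _)
    linarith
  · refine le_trans ?_ (le_iSup (fun g : {f : Eu d → ℝ // TildeC2 d D f} => ENNReal.ofReal |(∫ x in D, g.1 x) - A.run n g.1|) ⟨fun x => - f x, hf2⟩)
    apply ENNReal.ofReal_le_ofReal
    show s ≤ |(∫ x in D, - f x) - A.run n (fun x => - f x)|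
    rw [h2, integral_neg]
    refine le_trans ?_ (neg_le_abs _)
    linarith

/-- For every real `p > 0`, in particular for all `0 < p < 2`, integration on the class `C̃²` of the
volume-normalised `ℓ_p` balls suffers from the curse of dimensionality. (The first clause says that the
normalising radii exist.) -/
theorem result (p : ℝ) (hp : 0 < p) :
    (∀ d : ℕ, 0 < d → ∃ r : ℝ, 0 < r ∧ volume (lpBall p d r) = 1) ∧
    ∀ r : ℕ → ℝ, (∀ d : ℕ, 0 < d → 0 < r d ∧ volume (lpBall p d (r d)) = 1) →
      SuffersCurse (fun d => lpBall p d (r d)) := by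
  refine ⟨fun d hd => ball_exists p hp hd, fun r hr => ?_⟩
  have hk := kap_pos p hp
  refine ⟨1 / 4, Real.exp (kap p) - 1, 1 / 200000, by norm_num, ?_, by norm_num, ?_⟩
  · have := Real.one_lt_exp_iff.2 hk
    linarith
  · have hsub : Set.Ici 3 ⊆ {d : ℕ | ∀ ε : ℝ, 0 < ε → ε ≤ 1 / 200000 → ∀ n : ℕ,
        minErr d (lpBall p d (r d)) n ≤ ENNReal.ofReal ε → 1 / 4 * (1 + (Real.exp (kap p) - 1)) ^ d ≤ n} := by
      intro d hd ε hε hε2 n hn
      have hd3 : 3 ≤ d := hd
      by_contra hcon
      push Not at hcon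
      obtain ⟨hr0, hvol⟩ := hr d (by omega)
      have hpow : (1 + (Real.exp (kap p) - 1)) ^ d = Real.exp (kap p * d) := by
        rw [add_sub_cancel, ← Real.exp_nat_mul]; congr 1; ring
      rw [hpow] at hcon
      have hge : ENNReal.ofReal (1 / 108800) ≤ minErr d (lpBall p d (r d)) n := by
        apply minErr_ge
        intro P hP
        have hPc : (P.card : ℝ) ≤ 1 / 4 * Real.exp (kap p * d) := by
          have : (P.card : ℝ) ≤ n := by exact_mod_cast hP
          linarith
        exact fooling p hp hd3 (r d) hr0 hvol P hPc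
      have h1 := hge.trans hn
      rw [ENNReal.ofReal_le_ofReal_iff hε.le] at h1
      norm_num at hε2
      linarith
    exact (Set.Ici_infinite 3).mono hsub

end Pool.Agent.Results.MP_562679_an.Curse
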